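import Pool.Agent.H80.PK.GStmts

/-!
# Row ABO of the board `pkt`
-/

set_option autoImplicit false

namespace Pool.PK

open MeasureTheory Filter Topology

theorem ABO (h1 : OPAStmt) (h2 : STRStmt) (h3 : UNIStmt) : ABOStmt := by
  intro G _ _ _ _ _ _ _ μ _ p hp
  obtain ⟨hsn, hmul, -, hle⟩ := h1 G μ p hp
  obtain ⟨sadd, ssmul, smul, -⟩ := h2 G μ
  have hnn : ∀ f : CG μ, 0 ≤ opn μ p f := fun f =>
    Real.sInf_nonneg fun c hc => hc.1
  refine ⟨?_, ?_, ?_⟩
  · refine ⟨fun f => (hnn f).trans (le_max_left _ _), fun f g => ?_, fun c f => ?_⟩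
    · change max (opn μ p (f + g)) (opn μ p (str (f + g))) ≤ _
      rw [sadd]
      exact max_le ((hsn.2.1 f g).trans (add_le_add (le_max_left _ _) (le_max_left _ _)))
        ((hsn.2.1 _ _).trans (add_le_add (le_max_right _ _) (le_max_right _ _)))
    · change max (opn μ p (c • f)) (opn μ p (str (c • f))) = ‖c‖ * max (opn μ p f) (opn μ p (str f))
      rw [ssmul, hsn.2.2, hsn.2.2, RCLike.norm_conj, mul_max_of_nonneg _ _ (norm_nonneg c)]
  · intro f g
    rw [smul]
    have a1 := hmul f g
    have a2 := hmul (str g) (str f)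
    apply max_le
    · exact a1.trans (mul_le_mul (le_max_left _ _) (le_max_left _ _) (hnn g)
        ((hnn f).trans (le_max_left _ _)))
    · rw [mul_comm (max _ _)]
      exact a2.trans (mul_le_mul (le_max_right _ _) (le_max_right _ _) (hnn _)
        ((hnn g).trans (le_max_left _ _)))
  · intro hS f
    refine max_le (hle f) ?_
    rw [← h3 G μ hS f]
    exact hle _

end Pool.PK
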